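import Pool.Agent.P.MP_27b523_gt.Fail

namespace Pool.Agent.Results.MP_27b523_gt.ConsistentlyFalse

open Pool.Agent.Lib.Helper87 Pool.Agent.Lib.Helper87.Coded Pool.Agent.P.MP_27b523_gt

theorem result : ∃ M : Set ZFSet.{0}, TransModelZFC M ∧ ∃ (κ : ZFSet.{0}) (X Y : Set Cantor),
    code X ∈ M ∧ code Y ∈ M ∧ RegularCard M κ ∧ FinUnbounded M κ X ∧ GammaProp M Y ∧
      ¬ S1GammaOmega M ((X ∪ FinSets) ×ˢ Y) := main

end Pool.Agent.Results.MP_27b523_gt.ConsistentlyFalse
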