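import Pool.Agent.P.MP_27b523_gt.S.Main

namespace Pool.Agent.Results.MP_27b523_gt.SmallParts

open Pool.Agent.P.MP_27b523_gt.S

theorem result {T : Type} [TopologicalSpace T] [T1Space T] (κ : Cardinal.{0}) (hκ : κ.IsRegular)
    (X : Set Cantor) (hX : FinUnbounded κ X) (Y : Set T) (hY : GammaProp Y)
    (h : ∀ S ⊆ X, Cardinal.mk S < κ → S1GammaOmega ((S ∪ FinSets) ×ˢ Y)) :
    S1GammaOmega ((X ∪ FinSets) ×ˢ Y) :=
  small_parts hκ hX hY h

end Pool.Agent.Results.MP_27b523_gt.SmallParts
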