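import Pool.Agent.P.MP_27b523_gt.S.Main

namespace Pool.Agent.Results.MP_27b523_gt.SmallProducts

open Pool.Agent.P.MP_27b523_gt.S

theorem result {T : Type} [TopologicalSpace T] [T1Space T] (κ : Cardinal.{0}) (hκ : κ.IsRegular)
    (hX : ∃ X, FinUnbounded κ X) (Y : Set T) (hY : GammaProp Y) :
    (∀ X, FinUnbounded κ X → S1GammaOmega ((X ∪ FinSets) ×ˢ Y)) ↔
      ∀ S : Set Cantor, Cardinal.mk S < κ → S1GammaOmega (S ×ˢ Y) :=
  small_products hκ hX hY

end Pool.Agent.Results.MP_27b523_gt.SmallProducts
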